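import Mathlib

/-!
# Connected reductive groups over the algebraic closure of a finite field: the data

`Datum p F G cs` records the standard structure of a connected reductive group `G` over an
algebraic closure `F` of a finite field (split form), seen as an abstract group: maximal torus `T`,
unipotent radical `U` of the Borel subgroup `B = T U`, normaliser `N` of `T`, Weyl group `W = N / T`
(a finite Coxeter group), homomorphisms `φ i : SL₂(F) → G` onto the rank one subgroups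
`G_i = ⟨U_{α_i}, U_{-α_i}⟩`, and a split Frobenius endomorphism `Fr`.
-/

set_option autoImplicit false

namespace Pool.Agent.Helper89.SX

open Matrix MonoidAlgebra

section SL2

variable {F : Type*} [Field F]

/-- The upper unitriangular matrix with entry `a`. -/
def up (a : F) : SpecialLinearGroup (Fin 2) F := ⟨!![1, a; 0, 1], by simp [Matrix.det_fin_two]⟩

/-- The lower unitriangular matrix with entry `a`. -/
def lo (a : F) : SpecialLinearGroup (Fin 2) F := ⟨!![1, 0; a, 1], by simp [Matrix.det_fin_two]⟩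

/-- The diagonal matrix with entries `c, c⁻¹`. -/
def dg (c : Fˣ) : SpecialLinearGroup (Fin 2) F :=
  ⟨!![(c : F), 0; 0, ((c⁻¹ : Fˣ) : F)], by simp [Matrix.det_fin_two]⟩

/-- The matrix with rows `(0, 1)` and `(-1, 0)`. -/
def wt : SpecialLinearGroup (Fin 2) F := ⟨!![0, 1; -1, 0], by simp [Matrix.det_fin_two]⟩

/-- Conjugation by the diagonal matrix with entries `c, 1`. -/
def tw (c : Fˣ) (x : SpecialLinearGroup (Fin 2) F) : SpecialLinearGroup (Fin 2) F :=
  ⟨!![x 0 0, c * x 0 1; ((c⁻¹ : Fˣ) : F) * x 1 0, x 1 1], by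
    have h := x.2
    rw [Matrix.det_fin_two] at h
    have hc : (c : F) * ((c⁻¹ : Fˣ) : F) = 1 := by simp
    rw [Matrix.det_fin_two]
    simp only [Matrix.of_apply, Matrix.cons_val', Matrix.cons_val_zero, Matrix.cons_val_fin_one,
      Matrix.cons_val_one]
    linear_combination h - (x 0 1 * x 1 0) * hc⟩

end SL2

/-- The structure of a connected reductive group over an algebraic closure `F` of the field with
`p` elements, as an abstract group `G` of `F`-points. -/
structure Datum (p : ℕ) [Fact p.Prime] (F : Type*) [Field F] [CharP F p] (G : Type*) [Group G]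
    {I : Type*} {C : CoxeterMatrix I} {W : Type*} [Group W] (cs : CoxeterSystem C W) where
  /-- the maximal torus -/
  T : Subgroup G
  /-- the unipotent radical of the Borel subgroup `B = T U` -/
  U : Subgroup G
  /-- the normaliser of the maximal torus -/
  N : Subgroup G
  /-- the projection `N → W = N / T` -/
  ν : N →* W
  /-- the homomorphism `SL₂ → G` with image the rank one group `G_i = ⟨U_{α_i}, U_{-α_i}⟩` -/
  φ : I → SpecialLinearGroup (Fin 2) F →* G
  /-- the simple root `α_i` as a character of the torus -/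
  α : I → T →* Fˣ
  /-- the dimension of the torus -/
  rank : ℕ
  /-- the torus is a product of copies of the multiplicative group -/
  torus : (Fin rank → Fˣ) ≃* T
  /-- the Frobenius endomorphism raises the coordinates to the power `p ^ e` -/
  e : ℕ
  /-- the (split) Frobenius endomorphism -/
  Fr : G →* G
  T_le_N : T ≤ N
  ν_surjective : Function.Surjective ν
  ν_eq_one : ∀ n : N, ν n = 1 ↔ (n : G) ∈ T
  /-- `T` normalises `U` -/
  conj_U : ∀ t ∈ T, ∀ u ∈ U, t * u * t⁻¹ ∈ U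
  /-- `T ∩ U = 1` -/
  T_inf_U : ∀ g ∈ T, g ∈ U → g = 1
  /-- the elements of `U` are unipotent -/
  unipotent : ∀ u ∈ U, ∃ k : ℕ, u ^ p ^ k = 1
  /-- `N ∩ B = T` -/
  N_inf_B : ∀ t ∈ T, ∀ u ∈ U, t * u ∈ N → t * u ∈ T
  φ_dg : ∀ i (c : Fˣ), φ i (dg c) ∈ T
  φ_up : ∀ i (a : F), φ i (up a) ∈ U
  φ_wt : ∀ i, φ i wt ∈ N
  ν_wt : ∀ i, ν ⟨φ i wt, φ_wt i⟩ = cs.simple i
  /-- the torus acts on the rank one group through the root `α_i` -/
  conj_φ : ∀ i (t : T) (x : SpecialLinearGroup (Fin 2) F),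
    (t : G) * φ i x * (t : G)⁻¹ = φ i (tw (α i t) x)
  /-- `w U_{α_i} w⁻¹ ⊆ U` if `ℓ(w s_i) > ℓ(w)`, that is if `w α_i` is a positive root -/
  conj_pos : ∀ (n : N) i, ¬ cs.IsRightDescent (ν n) i → ∀ a : F,
    (n : G) * φ i (up a) * (n : G)⁻¹ ∈ U
  /-- `U = U_{α_i} (U ∩ s_i U s_i⁻¹)` -/
  split : ∀ i, ∀ u ∈ U, ∃ a : F, ∃ u' ∈ U, u = φ i (up a) * u' ∧ (φ i wt)⁻¹ * u' * φ i wt ∈ U
  /-- `G` is generated by `T`, `U` and the `s_i` -/
  generated : Subgroup.closure ((T : Set G) ∪ U ∪ Set.range fun i => φ i wt) = ⊤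
  /-- `T ∩ G_J` is generated by the `T_i = T ∩ G_i`, `i ∈ J`, for `G_J = ⟨G_i : i ∈ J⟩` -/
  T_inf_GJ : ∀ J : Set I, T ⊓ (⨆ i ∈ J, (φ i).range) ≤ ⨆ i ∈ J, (T ⊓ (φ i).range)
  e_pos : 0 < e
  Fr_φ : ∀ i x, Fr (φ i x) = φ i (SpecialLinearGroup.map (iterateFrobenius F p e) x)
  Fr_torus : ∀ c, Fr (torus c) = torus (fun j => c j ^ p ^ e)
  Fr_U : ∀ u ∈ U, Fr u ∈ U
  /-- every element is defined over a finite field -/
  Fr_fixed : ∀ g, ∃ m : ℕ, 0 < m ∧ Fr^[m] g = g
  /-- there are finitely many points over a finite field -/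
  Fr_finite : ∀ m : ℕ, 0 < m → {g | Fr^[m] g = g}.Finite

namespace Datum

variable {p : ℕ} [Fact p.Prime] {F : Type*} [Field F] [CharP F p] {G : Type*} [Group G]
  {I : Type*} {C : CoxeterMatrix I} {W : Type*} [Group W] {cs : CoxeterSystem C W}
  (D : Datum p F G cs)

/-- The parabolic subgroup `W_J` of the Weyl group. -/
def WJ (_ : Datum p F G cs) (J : Set I) : Subgroup W := Subgroup.closure (cs.simple '' J)

/-- The subgroup `G_J = ⟨G_i : i ∈ J⟩`. -/
def GJ (J : Set I) : Subgroup G := ⨆ i ∈ J, (D.φ i).range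

/-- `n J w` is a representative of `w` in `G_J`, for all `w ∈ W_J` and all `J`. -/
def IsReps (n : Set I → W → G) : Prop :=
  ∀ J : Set I, ∀ w ∈ D.WJ J, n J w ∈ D.GJ J ∧ ∃ h : n J w ∈ D.N, D.ν ⟨n J w, h⟩ = w

section Modules

variable {k : Type*} [Field k]

/-- `I(θ)`: the `i` with `θ` trivial on `T_i = T ∩ G_i`. -/
def Iθ (θ : D.T →* kˣ) : Set I := {i | ∀ t : D.T, (t : G) ∈ (D.φ i).range → θ t = 1}

/-- The left ideal of `k[G]` generated by `b - θ(b)`, `b ∈ B` (it is enough to take `b ∈ T` and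
`b ∈ U`; `θ` is trivial on `U`). -/
noncomputable def ind (θ : D.T →* kˣ) : Submodule (MonoidAlgebra k G) (MonoidAlgebra k G) :=
  Submodule.span (MonoidAlgebra k G)
    (Set.range (fun t : D.T => single (t : G) (1 : k) - single 1 (θ t : k)) ∪
      {x | ∃ u ∈ D.U, x = single u (1 : k) - single 1 1})

/-- `M(θ) = k[G] ⊗_{k[B]} k_θ`, as the quotient of `k[G]` by the left ideal generated by the
`b - θ(b)`; the generator `1_θ` is the class of `1`. -/
abbrev MM (θ : D.T →* kˣ) : Type _ := MonoidAlgebra k G ⧸ D.ind θ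

variable [Fintype W]

open Classical in
/-- `η_J = ∑_{w ∈ W_J} (-1)^{ℓ(w)} w` in the group algebra, for the representatives `n`. -/
noncomputable def etaG (k : Type*) [Field k] (n : Set I → W → G) (J : Set I) : MonoidAlgebra k G :=
  ∑ w ∈ Finset.univ.filter (· ∈ D.WJ J), single (n J w) ((-1) ^ cs.length w)

/-- `η(θ)_J = ∑_{w ∈ W_J} (-1)^{ℓ(w)} w 1_θ`. -/
noncomputable def eta (θ : D.T →* kˣ) (n : Set I → W → G) (J : Set I) : D.MM θ :=
  (D.ind θ).mkQ (D.etaG k n J)

/-- `M(θ)_J = k[G] η(θ)_J`. -/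
noncomputable def MJ (θ : D.T →* kˣ) (n : Set I → W → G) (J : Set I) :
    Submodule (MonoidAlgebra k G) (D.MM θ) :=
  Submodule.span (MonoidAlgebra k G) {D.eta θ n J}

/-- `M(θ)'_J`, the sum of the `M(θ)_K`, `J ⊊ K ⊆ I(θ)`. -/
noncomputable def MJ' (θ : D.T →* kˣ) (n : Set I → W → G) (J : Set I) :
    Submodule (MonoidAlgebra k G) (D.MM θ) :=
  ⨆ K ∈ {K : Set I | J ⊂ K ∧ K ⊆ D.Iθ θ}, D.MJ θ n K

/-- `E(θ)_J = M(θ)_J / M(θ)'_J`. -/
abbrev E (θ : D.T →* kˣ) (n : Set I → W → G) (J : Set I) : Type _ :=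
  D.MJ θ n J ⧸ (D.MJ' θ n J).comap (D.MJ θ n J).subtype

/-- The Steinberg module `St = M(tr)_I`. -/
abbrev St (k : Type*) [Field k] (n : Set I → W → G) : Type _ := D.MJ (1 : D.T →* kˣ) n Set.univ

end Modules

end Datum

end Pool.Agent.Helper89.SX
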