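import Mathlib
import Pool.Agent.Helper89.SX.Defs

/-!
# SX: auxiliary definitions
-/

set_option autoImplicit false

namespace Pool.Agent.Helper89.SX

open Matrix MonoidAlgebra

namespace Datum

variable {p : ℕ} [Fact p.Prime] {F : Type*} [Field F] [CharP F p] {G : Type*} [Group G]
  {I : Type*} {C : CoxeterMatrix I} {W : Type*} [Group W] {cs : CoxeterSystem C W}
  (D : Datum p F G cs)

/-- The Borel subgroup `B = T U`. -/
def B : Subgroup G := D.T ⊔ D.U

/-- The representative `s_i` of the simple reflection. -/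
def s (i : I) : G := D.φ i wt

/-- The parabolic subgroup `P_K`. -/
def P (K : Set I) : Subgroup G := D.B ⊔ Subgroup.closure (D.s '' K)

/-- The number of elements of the base field. -/
def q (D : Datum p F G cs) : ℕ := p ^ D.e

/-- `g ∈ B w B`. -/
def Rel (g : G) (w : W) : Prop :=
  ∃ b ∈ D.B, ∃ n : D.N, ∃ b' ∈ D.B, D.ν n = w ∧ g = b * n * b'

/-- The finite group `G_m` of the points fixed by `Fr ^ m` (for `m > 0`), as a finite set. -/
noncomputable def Gm (m : ℕ) : Finset G := if h : 0 < m then (D.Fr_finite m h).toFinset else ∅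

open Classical in
/-- The finite field `F_m = {a | a ^ (q ^ m) = a}` (for `m > 0`), as a finite set. -/
noncomputable def fm (D : Datum p F G cs) (m : ℕ) : Finset F :=
  (Polynomial.X ^ (D.q ^ m) - Polynomial.X : Polynomial F).roots.toFinset

/-- The permutation module on the chambers `g B`. -/
abbrev X : Type _ := (G ⧸ D.B) →₀ ℚ

/-- The chamber `g B` as an element of the permutation module. -/
noncomputable def δ (g : G) : D.X := Finsupp.single (g : G ⧸ D.B) 1

/-- The action of `g` on the permutation module. -/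
noncomputable def act (g : G) : D.X →ₗ[ℚ] D.X :=
  Finsupp.lmapDomain ℚ ℚ (fun c : G ⧸ D.B => g • c)

/-- The panel sum: the sum of the chambers of `𝒞_m` in the `i`-panel of `g B`. -/
noncomputable def panel (m : ℕ) (g : G) (i : I) : D.X :=
  D.δ g + ∑ a ∈ D.fm m, D.δ (g * D.φ i (up a) * D.s i)

end Datum

section Functions

variable {G : Type*} [Group G] {κ : Type*} [Field κ]

/-- Left translation of functions: `(g v)(x) = v(g⁻¹ x)`. -/
def lt (g : G) : (G → κ) →ₗ[κ] (G → κ) where
  toFun v x := v (g⁻¹ * x)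
  map_add' _ _ := rfl
  map_smul' _ _ := rfl

open Classical in
/-- The function supported on `P`, equal to `χ⁻¹` there. -/
noncomputable def dl (P : Subgroup G) (χ : P →* κˣ) (g : G) : κ :=
  if h : g ∈ P then (((χ ⟨g, h⟩)⁻¹ : κˣ) : κ) else 0

/-- The `k[G]`-linear map `k[G] → (G → k)` with `1 ↦ dl P χ`. -/
noncomputable def Psi (P : Subgroup G) (χ : P →* κˣ) : MonoidAlgebra κ G →ₗ[κ] (G → κ) :=
  (Finsupp.linearCombination κ fun (g : G) (x : G) => dl P χ (g⁻¹ * x)) ∘ₗ
    (MonoidAlgebra.coeffLinearEquiv κ).toLinearMap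

/-- `v (x p) = χ(p)⁻¹ v(x)`. -/
def RightEq (P : Subgroup G) (χ : P →* κˣ) (v : G → κ) : Prop :=
  ∀ x g (hg : g ∈ P), v (x * g) = (((χ ⟨g, hg⟩)⁻¹ : κˣ) : κ) * v x

/-- `v` has finite support modulo `P`. -/
def FinMod (P : Subgroup G) (v : G → κ) : Prop :=
  ∃ S : Finset G, ∀ x, v x ≠ 0 → ∃ y ∈ S, y⁻¹ * x ∈ P

/-- Restriction of complex functions to a finite set, with the `ℓ²`-norm. -/
noncomputable def res (S : Finset G) : (G → ℂ) →ₗ[ℂ] EuclideanSpace ℂ S where
  toFun v := WithLp.toLp 2 (fun g : S => v g)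
  map_add' _ _ := rfl
  map_smul' _ _ := rfl

end Functions

end Pool.Agent.Helper89.SX
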