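import Mathlib
import Pool.Agent.Helper89.SX.St.A1b

/-!
# SX: the Steinberg module over the rationals
-/

set_option autoImplicit false

namespace Pool.Agent.Helper89.SX

open Matrix MonoidAlgebra

namespace Datum

variable {p : ℕ} [Fact p.Prime] {F : Type*} [Field F] [CharP F p] {G : Type*} [Group G]
  {I : Type*} {C : CoxeterMatrix I} {W : Type*} [Group W] {cs : CoxeterSystem C W}
  (D : Datum p F G cs)

/-- A representative of `w` in `N`, fixed by the Frobenius. -/
noncomputable def rep (w : W) : G := (Classical.choose (D.exists_rep w) : D.N)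

theorem rep_mem (w : W) : D.rep w ∈ D.N := (Classical.choose (D.exists_rep w)).2

theorem ν_rep (w : W) : D.ν ⟨D.rep w, D.rep_mem w⟩ = w := (Classical.choose_spec (D.exists_rep w)).1

theorem Fr_rep (w : W) : D.Fr (D.rep w) = D.rep w := (Classical.choose_spec (D.exists_rep w)).2

theorem pos_rep (w : W) : D.pos (D.rep w) = w := by
  have h := D.pos_N ⟨D.rep w, D.rep_mem w⟩
  rw [D.ν_rep] at h
  exact h

theorem δ_mul_B (g : G) {b : G} (hb : b ∈ D.B) : D.δ (g * b) = D.δ g := by
  unfold δ
  rw [QuotientGroup.mk_mul_of_mem g hb]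

theorem act_δ (g h : G) : D.act g (D.δ h) = D.δ (g * h) := by
  unfold act δ
  rw [Finsupp.lmapDomain_apply, Finsupp.mapDomain_single]
  rfl

theorem act_mul (g h : G) (x : D.X) : D.act (g * h) x = D.act g (D.act h x) := by
  unfold act
  simp only [Finsupp.lmapDomain_apply]
  rw [← Finsupp.mapDomain_comp]
  congr 1
  funext c
  exact mul_smul g h c

theorem act_one (x : D.X) : D.act 1 x = x := by
  unfold act
  simp only [Finsupp.lmapDomain_apply, one_smul]
  exact Finsupp.mapDomain_id

variable [Fintype W]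

/-- The generator `e = ∑ (-1)^{ℓ(w)} w B` of the Steinberg module. -/
noncomputable def eQ : D.X := ∑ w : W, ((-1 : ℚ) ^ cs.length w) • D.δ (D.rep w)

/-- The Steinberg module over the rational numbers. -/
noncomputable def StQ : Submodule ℚ D.X := Submodule.span ℚ (Set.range fun g : G => D.act g D.eQ)

/-- The Steinberg module of the finite group `G_m`. -/
noncomputable def StM (m : ℕ) : Submodule ℚ D.X :=
  Submodule.span ℚ ((fun g : G => D.act g D.eQ) '' (D.Gm m : Set G))

theorem StM_le (m : ℕ) : D.StM m ≤ D.StQ :=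
  Submodule.span_mono (by rintro _ ⟨g, -, rfl⟩; exact ⟨g, rfl⟩)

theorem act_mem_StQ (g : G) {x : D.X} (hx : x ∈ D.StQ) : D.act g x ∈ D.StQ := by
  have h : D.StQ ≤ D.StQ.comap (D.act g) := by
    unfold StQ
    rw [Submodule.span_le]
    rintro _ ⟨h, rfl⟩
    refine Submodule.subset_span ⟨g * h, ?_⟩
    exact D.act_mul g h _
  exact h hx

/-- The action of `g` on the Steinberg module. -/
noncomputable def actS (g : G) : D.StQ →ₗ[ℚ] D.StQ :=
  (D.act g).restrict fun _ hx => D.act_mem_StQ g hx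

/-- The generator of the Steinberg module, as an element of the submodule. -/
noncomputable def eS : D.StQ := ⟨D.eQ, Submodule.subset_span ⟨1, D.act_one _⟩⟩

/-- A `G`-equivariant bilinear map from the Steinberg module to functions on `G`. -/
def IsEquiv (b : D.StQ →ₗ[ℚ] D.StQ →ₗ[ℚ] (G → ℂ)) : Prop :=
  ∀ g x y, b (D.actS g x) (D.actS g y) = lt g (b x y)

/-- A bilinear form `Z` on the whole permutation module which agrees with `b` on the Steinberg
module of `G_m`, is `G_m`-equivariant and kills the panel sums. -/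
structure IsZ (b : D.StQ →ₗ[ℚ] D.StQ →ₗ[ℚ] (G → ℂ)) (m : ℕ)
    (Z : D.X →ₗ[ℚ] D.X →ₗ[ℚ] (G → ℂ)) : Prop where
  agree : ∀ (x y : D.X) (hx : x ∈ D.StM m) (hy : y ∈ D.StM m),
    Z x y = b ⟨x, D.StM_le m hx⟩ ⟨y, D.StM_le m hy⟩
  equiv : ∀ g ∈ D.Gm m, ∀ x y, Z (D.act g x) (D.act g y) = lt g (Z x y)
  panel_left : ∀ i, ∀ g ∈ D.Gm m, ∀ y, Z (D.panel m g i) y = 0
  panel_right : ∀ i, ∀ g ∈ D.Gm m, ∀ x, Z x (D.panel m g i) = 0
  values : ∀ x y, ∃ x' y' : D.StQ, Z x y = b x' y'

end Datum

end Pool.Agent.Helper89.SX
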