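import Mathlib
import Pool.Agent.Helper89.SX.St.B4
import Pool.Agent.Helper89.SX.St.S1
import Pool.Agent.Helper89.SX.St.S3

/-!
# SX: assembly
-/

set_option autoImplicit false

namespace Pool.Agent.Helper89.SX

open Matrix MonoidAlgebra TensorProduct

namespace Datum

variable {p : ℕ} [Fact p.Prime] {F : Type*} [Field F] [CharP F p] {G : Type*} [Group G]
  {I : Type*} {C : CoxeterMatrix I} {W : Type*} [Group W] {cs : CoxeterSystem C W}
  (D : Datum p F G cs)

theorem hom_eq_zero [IsAlgClosed F] [Fintype W] {k : Type*} [Field k] [CharZero k]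
    {n : Set I → W → G} (hn : D.IsReps n) {θ : D.T →* kˣ} (hθ : θ ≠ 1) {J : Set I}
    (hJ : J ⊆ D.Iθ θ) (f : D.St k n ⊗[k] D.St k n →ₗ[k] D.E θ n J)
    (hf : ∀ (g : G) (x y : D.St k n), f (((single g (1 : k) : MonoidAlgebra k G) • x) ⊗ₜ[k]
      ((single g (1 : k) : MonoidAlgebra k G) • y)) =
        (single g (1 : k) : MonoidAlgebra k G) • f (x ⊗ₜ[k] y)) : f = 0 := by
  classical
  obtain ⟨χ, hχ⟩ := D.exists_extends θ (K := D.Iθ θ \ J) Set.diff_subset
  obtain ⟨ev, hinj, hev, hr, hfin⟩ := D.exists_ev hn hJ hχ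
  obtain ⟨j, hj, hje⟩ := D.exists_j k hn
  let β : D.StQ →+ D.StQ →+ (G → k) :=
    AddMonoidHom.mk' (fun x => AddMonoidHom.mk' (fun y => ev (f (j x ⊗ₜ[k] j y)))
      (fun y y' => by rw [map_add, tmul_add, map_add, map_add]))
      (fun x x' => by
        ext1 y
        change ev (f (j (x + x') ⊗ₜ[k] j y)) = ev (f (j x ⊗ₜ[k] j y)) + ev (f (j x' ⊗ₜ[k] j y))
        rw [map_add, add_tmul, map_add, map_add])
  have hβ : ∀ x y, β x y = ev (f (j x ⊗ₜ[k] j y)) := fun _ _ => rfl
  have h0 := D.bilinear_eq_zero hθ hχ β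
    (fun g x y => by rw [hβ, hβ, hj, hj, hf, hev]) (fun x y => hr _) (fun x y => hfin _)
  have h1 : ∀ g h : G, f (((single g (1 : k) : MonoidAlgebra k G) • j D.eS) ⊗ₜ[k]
      ((single h (1 : k) : MonoidAlgebra k G) • j D.eS)) = 0 := by
    intro g h
    rw [← hj, ← hj]
    refine hinj ?_
    rw [map_zero, ← hβ]
    exact h0 _ _
  have hspan : ∀ x : D.St k n, ∃ a : MonoidAlgebra k G, x = a • j D.eS := by
    rintro ⟨x, hx⟩
    obtain ⟨a, ha⟩ := Submodule.mem_span_singleton.1 hx
    refine ⟨a, Subtype.ext ?_⟩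
    rw [Submodule.coe_smul, hje]
    exact ha.symm
  have hsm : ∀ (r : k) (g : G) (z : D.St k n), (single g r : MonoidAlgebra k G) • z =
      r • ((single g (1 : k) : MonoidAlgebra k G) • z) := by
    intro r g z
    rw [← smul_assoc, MonoidAlgebra.smul_single, smul_eq_mul, mul_one]
  have h2 : ∀ (a : MonoidAlgebra k G) (h : G), f ((a • j D.eS) ⊗ₜ[k]
      ((single h (1 : k) : MonoidAlgebra k G) • j D.eS)) = 0 := by
    intro a h
    induction a using MonoidAlgebra.induction_linear with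
    | zero => rw [zero_smul, zero_tmul, map_zero]
    | add a b ha hb => rw [add_smul, add_tmul, map_add, ha, hb, add_zero]
    | single g r => rw [hsm, ← smul_tmul', map_smul, h1, smul_zero]
  have h3 : ∀ a b : MonoidAlgebra k G, f ((a • j D.eS) ⊗ₜ[k] (b • j D.eS)) = 0 := by
    intro a b
    induction b using MonoidAlgebra.induction_linear with
    | zero => rw [zero_smul, tmul_zero, map_zero]
    | add b c hb hc => rw [add_smul, tmul_add, map_add, hb, hc, add_zero]
    | single g r => rw [hsm, tmul_smul, map_smul, h2, smul_zero]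
  refine TensorProduct.ext' fun x y => ?_
  obtain ⟨a, rfl⟩ := hspan x
  obtain ⟨b, rfl⟩ := hspan y
  rw [h3, LinearMap.zero_apply]

end Datum

end Pool.Agent.Helper89.SX
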