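import Mathlib
import Pool.Agent.Helper89.SX.Defs

/-!
# The statement: the modules `M(θ)`, `M(θ)_J`, `E(θ)_J`, `St` and the vanishing of `Hom`
-/

set_option autoImplicit false

namespace Pool.Agent.Helper89.SX

open MonoidAlgebra TensorProduct

namespace Datum

variable {p : ℕ} [Fact p.Prime] {F : Type*} [Field F] [CharP F p] {G : Type*} [Group G]
  {I : Type*} {C : CoxeterMatrix I} {W : Type*} [Group W] {cs : CoxeterSystem C W}
  (D : Datum p F G cs) (k : Type*) [Field k]

/-- The characters `θ : T → kˣ`. -/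
def Chr : Type _ := D.T →* kˣ

/-- The value `θ(t)`. -/
def val (θ : D.Chr k) (t : D.T) : kˣ := DFunLike.coe (F := D.T →* kˣ) θ t

/-- The trivial character. -/
def tr : D.Chr k := (1 : D.T →* kˣ)

/-- `I(θ)`: the `i` with `θ` trivial on `T_i = T ∩ G_i`. -/
def Iset (θ : D.Chr k) : Set I := {i | ∀ t : D.T, (t : G) ∈ (D.φ i).range → D.val k θ t = 1}

/-- The left ideal of `k[G]` generated by the `t - θ(t)`, `t ∈ T`, and `u - 1`, `u ∈ U`, that is by
the `b - θ(b)`, `b ∈ B = T U`. -/
noncomputable def leftIdeal (θ : D.Chr k) : Submodule (MonoidAlgebra k G) (MonoidAlgebra k G) :=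
  Submodule.span (MonoidAlgebra k G)
    (Set.range (fun t : D.T => single (t : G) (1 : k) - single 1 (D.val k θ t : k)) ∪
      {x | ∃ u ∈ D.U, x = single u (1 : k) - single 1 1})

/-- `M(θ) = k[G] ⊗_{k[B]} k_θ`, as the quotient of `k[G]` by the left ideal generated by the
`b - θ(b)`; the generator `1_θ` is the class of `1`. -/
def M (θ : D.Chr k) : Type _ := MonoidAlgebra k G ⧸ D.leftIdeal k θ

noncomputable instance (θ : D.Chr k) : AddCommGroup (D.M k θ) :=
  Submodule.Quotient.addCommGroup (D.leftIdeal k θ)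

noncomputable instance (θ : D.Chr k) : Module (MonoidAlgebra k G) (D.M k θ) :=
  Submodule.Quotient.module (D.leftIdeal k θ)

/-- The class `a 1_θ` of `a ∈ k[G]` in `M(θ)`. -/
noncomputable def cls (θ : D.Chr k) (a : MonoidAlgebra k G) : D.M k θ :=
  Submodule.Quotient.mk (p := D.leftIdeal k θ) a

variable [Fintype W]

/-- `M(θ)_J = k[G] η(θ)_J`, `η(θ)_J = ∑_{w ∈ W_J} (-1)^{ℓ(w)} w 1_θ`. -/
noncomputable def sub (θ : D.Chr k) (n : Set I → W → G) (J : Set I) :
    Submodule (MonoidAlgebra k G) (D.M k θ) :=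
  Submodule.span (MonoidAlgebra k G) {D.cls k θ (D.etaG k n J)}

/-- `M(θ)'_J`, the sum of the `M(θ)_K`, `J ⊊ K ⊆ I(θ)`. -/
noncomputable def sub' (θ : D.Chr k) (n : Set I → W → G) (J : Set I) :
    Submodule (MonoidAlgebra k G) (D.M k θ) :=
  ⨆ K ∈ {K : Set I | J ⊂ K ∧ K ⊆ D.Iset k θ}, D.sub k θ n K

/-- `M(θ)'_J` as a submodule of `M(θ)_J`. -/
noncomputable def ker (θ : D.Chr k) (n : Set I → W → G) (J : Set I) :
    Submodule (MonoidAlgebra k G) (D.sub k θ n J) :=
  Submodule.comap (Submodule.subtype (D.sub k θ n J)) (D.sub' k θ n J)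

/-- `E(θ)_J = M(θ)_J / M(θ)'_J`. -/
def EJ (θ : D.Chr k) (n : Set I → W → G) (J : Set I) : Type _ :=
  D.sub k θ n J ⧸ D.ker k θ n J

noncomputable instance (θ : D.Chr k) (n : Set I → W → G) (J : Set I) :
    AddCommGroup (D.EJ k θ n J) :=
  Submodule.Quotient.addCommGroup (D.ker k θ n J)

noncomputable instance (θ : D.Chr k) (n : Set I → W → G) (J : Set I) :
    Module (MonoidAlgebra k G) (D.EJ k θ n J) :=
  Submodule.Quotient.module (D.ker k θ n J)

/-- The scalars `c ∈ k` act through `k[G]`. -/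
noncomputable instance (θ : D.Chr k) (n : Set I → W → G) (J : Set I) :
    Module k (D.EJ k θ n J) :=
  Module.compHom _ (algebraMap k (MonoidAlgebra k G))

/-- The Steinberg module `St = M(tr)_I`. -/
def Stb (n : Set I → W → G) : Type _ := D.sub k (D.tr k) n Set.univ

noncomputable instance (n : Set I → W → G) : AddCommGroup (D.Stb k n) :=
  Submodule.addCommGroup (D.sub k (D.tr k) n Set.univ)

noncomputable instance (n : Set I → W → G) : Module (MonoidAlgebra k G) (D.Stb k n) :=
  Submodule.module (D.sub k (D.tr k) n Set.univ)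

/-- The scalars `c ∈ k` act through `k[G]`. -/
noncomputable instance (n : Set I → W → G) : Module k (D.Stb k n) :=
  Module.compHom _ (algebraMap k (MonoidAlgebra k G))

/-- The action of `g ∈ G` on `St`. -/
noncomputable def gSt (n : Set I → W → G) (g : G) (x : D.Stb k n) : D.Stb k n :=
  (single g (1 : k) : MonoidAlgebra k G) • x

/-- The action of `g ∈ G` on `E(θ)_J`. -/
noncomputable def gE (θ : D.Chr k) (n : Set I → W → G) (J : Set I) (g : G) (z : D.EJ k θ n J) :
    D.EJ k θ n J :=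
  (single g (1 : k) : MonoidAlgebra k G) • z

/-- The `k`-linear maps `St ⊗ St → E(θ)_J`. -/
abbrev Maps (θ : D.Chr k) (n : Set I → W → G) (J : Set I) : Type _ :=
  D.Stb k n ⊗[k] D.Stb k n →ₗ[k] D.EJ k θ n J

/-- The value `f(x ⊗ y)`. -/
noncomputable def at' (θ : D.Chr k) (n : Set I → W → G) (J : Set I) (f : D.Maps k θ n J) (x y : D.Stb k n) :
    D.EJ k θ n J :=
  f (x ⊗ₜ[k] y)

/-- `f : St ⊗ St → E(θ)_J` commutes with the action of `G`, diagonal on the tensor product:
`f(gx ⊗ gy) = g f(x ⊗ y)`. -/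
def IsEquivariant (θ : D.Chr k) (n : Set I → W → G) (J : Set I) (f : D.Maps k θ n J) : Prop :=
  ∀ (g : G) (x y : D.Stb k n),
    D.at' k θ n J f (D.gSt k n g x) (D.gSt k n g y) = D.gE k θ n J g (D.at' k θ n J f x y)

/-- `Hom_{kG}(St ⊗ St, E(θ)_J) = 0`. -/
def HomIsZero (θ : D.Chr k) (n : Set I → W → G) (J : Set I) : Prop :=
  ∀ f : D.Maps k θ n J, D.IsEquivariant k θ n J f → f = 0

end Datum

end Pool.Agent.Helper89.SX
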