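import Mathlib
import Pool.Agent.Helper89.SX.Final
import Pool.Agent.Helper89.SX.Stmt

/-!
# The statement in terms of `Stmt.lean`
-/

set_option autoImplicit false

namespace Pool.Agent.Helper89.SX

open MonoidAlgebra TensorProduct

namespace Datum

variable {p : ℕ} [Fact p.Prime] {F : Type*} [Field F] [CharP F p] {G : Type*} [Group G]
  {I : Type*} {C : CoxeterMatrix I} {W : Type*} [Group W] {cs : CoxeterSystem C W}
  (D : Datum p F G cs) (k : Type*) [Field k] [Fintype W]

/-- The two module structures over `k` agree. -/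
noncomputable def stEquiv (n : Set I → W → G) : D.Stb k n ≃ₗ[k] D.St k n where
  toFun x := x
  invFun x := x
  left_inv _ := rfl
  right_inv _ := rfl
  map_add' _ _ := rfl
  map_smul' c x := algebraMap_smul (MonoidAlgebra k G) c (show D.St k n from x)

/-- The two module structures over `k` agree. -/
noncomputable def eEquiv (θ : D.Chr k) (n : Set I → W → G) (J : Set I) :
    D.EJ k θ n J ≃ₗ[k] D.E (k := k) θ n J where
  toFun x := x
  invFun x := x
  left_inv _ := rfl
  right_inv _ := rfl
  map_add' _ _ := rfl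
  map_smul' c x := algebraMap_smul (MonoidAlgebra k G) c (show D.E (k := k) θ n J from x)

variable {k}

theorem homIsZero [IsAlgClosed F] [CharZero k] {n : Set I → W → G} (hn : D.IsReps n)
    {θ : D.Chr k} (hθ : θ ≠ D.tr k) {J : Set I} (hJ : J ⊆ D.Iset k θ) : D.HomIsZero k θ n J := by
  intro f hf
  let g : D.St k n ⊗[k] D.St k n →ₗ[k] D.E (k := k) θ n J :=
    (D.eEquiv k θ n J).toLinearMap ∘ₗ f ∘ₗ
      (TensorProduct.congr (D.stEquiv k n) (D.stEquiv k n)).symm.toLinearMap
  have hg : g = 0 := by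
    refine D.hom_eq_zero hn (θ := θ) hθ hJ g ?_
    intro a x y
    exact hf a ((D.stEquiv k n).symm x) ((D.stEquiv k n).symm y)
  refine TensorProduct.ext' fun x y => ?_
  have h1 : g (D.stEquiv k n x ⊗ₜ[k] D.stEquiv k n y) = 0 := by rw [hg, LinearMap.zero_apply]
  have h2 : g (D.stEquiv k n x ⊗ₜ[k] D.stEquiv k n y) = D.eEquiv k θ n J (f (x ⊗ₜ[k] y)) := by
    change D.eEquiv k θ n J (f ((TensorProduct.congr (D.stEquiv k n) (D.stEquiv k n)).symm
      (D.stEquiv k n x ⊗ₜ[k] D.stEquiv k n y))) = _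
    rw [TensorProduct.congr_symm_tmul, LinearEquiv.symm_apply_apply, LinearEquiv.symm_apply_apply]
  rw [h2] at h1
  rw [LinearMap.zero_apply]
  exact (D.eEquiv k θ n J).map_eq_zero_iff.1 h1

end Datum

end Pool.Agent.Helper89.SX
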